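import Pool.Agent.Helper64_FR.Defs
import Pool.Agent.Helper47_FR.UpB

/-!
# Definitions for the Bose sector `ρ_{(k,0,...,0,-k)}` (problem MP_3b0ba7_pr)
-/

open MeasureTheory Matrix
open scoped ComplexConjugate

namespace Pool.Agent.BSE

open Pool.Agent.Helper64_FR

variable {n : ℕ}

/-- The function `M ↦ ((g⁻¹ M g)_{pq})^k` on the `n × n` matrices. -/
def orb (k : ℕ) (p q : Fin n) (g : UU n) : Matrix (Fin n) (Fin n) ℂ → ℂ :=
  fun M => (((g⁻¹ : UU n) : Matrix (Fin n) (Fin n) ℂ) * M *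
    (g : Matrix (Fin n) (Fin n) ℂ)) p q ^ k

/-- `T` identifies `ρ` with the span of the `U(n)`-orbit of the function `M ↦ (M_{pq})^k`, on which
`U(n)` acts by `(g Φ)(M) = Φ(g⁻¹ M g)`. -/
structure IsBoseMap (k : ℕ) (ρ : URep n) (p q : Fin n)
    (T : (Fin ρ.dim → ℂ) →ₗ[ℂ] (Matrix (Fin n) (Fin n) ℂ → ℂ)) : Prop where
  inj : Function.Injective T
  range_eq : LinearMap.range T = Submodule.span ℂ (Set.range (orb k p q))
  equiv : ∀ (g : UU n) (v : Fin ρ.dim → ℂ) (M : Matrix (Fin n) (Fin n) ℂ),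
    T (ρ.mat g *ᵥ v) M = T v (((g⁻¹ : UU n) : Matrix (Fin n) (Fin n) ℂ) * M *
      (g : Matrix (Fin n) (Fin n) ℂ))

/-- `ρ` is (isomorphic to) `ρ_{(k,0,...,0,-k)}`, the `k`-th Cartan power of the adjoint
representation: the span of the `U(n)`-orbit of the extremal weight vector `M ↦ (M_{pq})^k`,
`p ≠ q`, of `Sym^k` of the dual of the `n × n` matrices. -/
def IsBose (k : ℕ) (ρ : URep n) : Prop :=
  ∃ p q : Fin n, p ≠ q ∧ ∃ T : (Fin ρ.dim → ℂ) →ₗ[ℂ] (Matrix (Fin n) (Fin n) ℂ → ℂ),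
    IsBoseMap k ρ p q T

/-- the diagonal matrix of a real vector -/
noncomputable def dg (c : Fin n → ℝ) : Matrix (Fin n) (Fin n) ℂ :=
  Matrix.diagonal fun i => (c i : ℂ)

/-- `⟨v, M u⟩` -/
noncomputable def bil (u v : Fin n → ℂ) (M : Matrix (Fin n) (Fin n) ℂ) : ℂ :=
  ∑ i, ∑ j, conj (v i) * M i j * u j

/-- `T_{B,A} c`: equal to `c` off `B`, and constant on `B`, equal to `∑_{j ∈ B} |A_{jb}|² c_j`
with `b = min B`. -/
noncomputable def TB (B : Finset (Fin n)) (A : UU n) (c : Fin n → ℝ) : Fin n → ℝ :=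
  fun i => if h : i ∈ B then
    ∑ j ∈ B, ‖(A : Matrix (Fin n) (Fin n) ℂ) j (B.min' ⟨i, h⟩)‖ ^ 2 * c j else c i

/-- the one-body inequality: `μ ∑_i (y_i - ȳ)² ≤ ∑_B w_B ∑_{i ∈ B} (y_i - ȳ_B)²` -/
def OneBody (w : Finset (Fin n) → ℝ) (μ : ℝ) : Prop :=
  ∀ y : Fin n → ℝ, μ * ∑ i, H47.dv Finset.univ y i ^ 2 ≤
    ∑ B : Finset (Fin n), w B * ∑ i, H47.dv B y i ^ 2

/-- the quartic `∑_{i < m} (c_i - c_m)⁴` -/
noncomputable def gg (c : Fin n → ℝ) : ℝ := (1 / 2) * ∑ i, ∑ m, (c i - c m) ^ 4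

/-- the oscillation `max c - min c` -/
noncomputable def osc (c : Fin n → ℝ) : ℝ := ‖fun p : Fin n × Fin n => c p.1 - c p.2‖

/-- `x` is an eigenvalue of the Laplacian on functions of `c`, with eigenfunction `f` -/
def EigFun (w : Finset (Fin n) → ℝ) (x : ℝ) (f : (Fin n → ℝ) → ℂ) : Prop :=
  ∀ c : Fin n → ℝ, ∑ B : Finset (Fin n), (w B : ℂ) *
    (f c - ∫ A : UB B, f (TB B (A : UU n) c) ∂(haarB B)) = (x : ℂ) * f c

/-- `f` is a finite sum of `k`-th powers of linear forms that vanish on constants -/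
def IsRidge (k : ℕ) (f : (Fin n → ℝ) → ℂ) : Prop :=
  ∃ (N : ℕ) (a : Fin N → ℂ) (x : Fin N → Fin n → ℂ), (∀ t, ∑ i, x t i = 0) ∧
    ∀ c : Fin n → ℝ, f c = ∑ t, a t * (∑ i, x t i * (c i : ℂ)) ^ k

end Pool.Agent.BSE
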