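import Mathlib

/-!
# MP_3b0ba7_pr, theorem BSE, level `k = 3`: definitions

A translation invariant cubic form is given by a symmetric tensor `F` with `sum_i F i j k = 0`.
-/

namespace Pool.Agent.BSE

variable {n : ℕ}

/-- symmetric tensors of order 3 -/
def Sym3 (F : Fin n → Fin n → Fin n → ℝ) : Prop :=
  (∀ i j k, F i j k = F j i k) ∧ (∀ i j k, F i j k = F i k j)

/-- translation invariance of the cubic form -/
def Tin3 (F : Fin n → Fin n → Fin n → ℝ) : Prop :=
  ∀ j k, ∑ i, F i j k = 0

/-- number of orderings of the configuration `e_i + e_j + e_k` -/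
def m3 (i j k : Fin n) : ℝ :=
  if i = j then (if j = k then 1 else 3) else (if j = k then 3 else (if i = k then 3 else 6))

/-- coefficient of the monomial `c_i c_j c_k` in the cubic form -/
def cf (F : Fin n → Fin n → Fin n → ℝ) (i j k : Fin n) : ℝ := m3 i j k * F i j k

/-- scalar product for which the monomials are orthonormal -/
def ip3 (F G : Fin n → Fin n → Fin n → ℝ) : ℝ :=
  ∑ i, ∑ j, ∑ k, m3 i j k * (F i j k * G i j k)

/-- the cubic form -/
def cub (F : Fin n → Fin n → Fin n → ℝ) (c : Fin n → ℝ) : ℝ :=
  ∑ i, ∑ j, ∑ k, F i j k * (c i * c j * c k)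

/-- the weight of the certificate on `S_i f (e_k + e_l)`, ordered pairs -/
noncomputable def kap (k l : Fin n) : ℝ := if k = l then 2 / 3 else 2 / 9

/-- the certificate as a quadratic form of the differences: `pair F p q = K (y_p - y_q)` -/
noncomputable def kpair (F : Fin n → Fin n → Fin n → ℝ) (p q : Fin n) : ℝ :=
  (∑ k, ∑ l, kap k l * (cf F p k l - cf F q k l) ^ 2) +
    (1 / 3) * ∑ m, (cf F p p m - cf F q q m) ^ 2

/-- replacement: `i` is replaced by the sum over `{p, q}` if `i` is `p` or `q` -/
def rp (p q : Fin n) (g : Fin n → ℝ) (i : Fin n) : ℝ := if i = p ∨ i = q then g p + g q else g i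

/-- weight of an index in the average -/
def tw (p q : Fin n) (u : ℝ) (i : Fin n) : ℝ := if i = p then u else if i = q then 1 - u else 1

/-- the tensor of the average of the cubic form over `U({p, q})` -/
noncomputable def PT (p q : Fin n) (F : Fin n → Fin n → Fin n → ℝ) (i j k : Fin n) : ℝ :=
  (∫ u in (0:ℝ)..1, tw p q u i * tw p q u j * tw p q u k) *
    rp p q (fun a => rp p q (fun b => rp p q (fun d => F a b d) k) j) i

/-- the vector `c` with the entries `p, q` replaced by `u c_p + (1 - u) c_q` -/
def rep (p q : Fin n) (u : ℝ) (c : Fin n → ℝ) (i : Fin n) : ℝ :=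
  if i = p ∨ i = q then u * c p + (1 - u) * c q else c i

end Pool.Agent.BSE
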