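import Pool.Agent.BSE.Defs

/-!
# Statements of the modules of the Bose sector theorem (problem MP_3b0ba7_pr)

The proof of every module is its docstring. `UB B` is the compact group `U_B`, `haarB B` its Haar
probability measure (`Measure.haarMeasure ⊤`), a column of `A ∈ U_B` with index `b ∈ B` is a unit
vector supported on `B`.
-/

open MeasureTheory Matrix Finset
open scoped ComplexConjugate

namespace Pool.Agent.BSE

open Pool.Agent.Helper64_FR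

/-- ROU. `(γ + α X + β X²)^m` is a polynomial of degree at most `2m` with constant term `γ^m`, and
`∑_t z^{tj} = 0` for `1 ≤ j ≤ 2m` (`IsPrimitiveRoot.geom_sum_eq_zero` for the primitive root and its
powers, or: `z^j ≠ 1` and `(z^j)^(2m+1) = 1`). -/
def ROUStmt : Prop := ∀ (m : ℕ) (γ α β z : ℂ), IsPrimitiveRoot z (2 * m + 1) →
  ∑ t ∈ range (2 * m + 1), (γ + α * z ^ t + β * z ^ (2 * t)) ^ m = (2 * m + 1) * γ ^ m

/-- TRN. `U_B` is transitive on the unit vectors supported on `B`. Householder: let `φ` be a unit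
complex number with `conj φ * u b` real and `≥ 0`; put `u' = conj φ • u`,
`w = e_b - u'`. If `w = 0` take `A = diag (φ on B, 1 off B)`. Otherwise `H = 1 - (2/|w|²) w w*` is
unitary, self-adjoint, lies in `U_B` (`w` is supported on `B`), and `H e_b = u'` because
`⟨e_b, u'⟩` is real and `|e_b| = |u'| = 1`. Take `A = diag (φ on B, 1 off B) * H`. -/
def TRNStmt : Prop := ∀ (n : ℕ) (B : Finset (Fin n)) (b : Fin n), b ∈ B → ∀ u : Fin n → ℂ,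
  (∀ i, i ∉ B → u i = 0) → ∑ i, ‖u i‖ ^ 2 = 1 →
  ∃ A ∈ UB B, ∀ i, (A : Matrix (Fin n) (Fin n) ℂ) i b = u i

/-- INV. The Haar probability measure of the compact group `U_B` is right invariant and invariant
under inversion (compact groups are unimodular; `haarB B = Measure.haarMeasure ⊤`), and it is a
probability measure. -/
def INVStmt : Prop := ∀ (n : ℕ) (B : Finset (Fin n)), IsProbabilityMeasure (haarB B) ∧
  ∀ f : UB B → ℂ, (∀ h : UB B, ∫ A, f (h * A) ∂(haarB B) = ∫ A, f A ∂(haarB B)) ∧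
    (∀ h : UB B, ∫ A, f (A * h) ∂(haarB B) = ∫ A, f A ∂(haarB B)) ∧
    ∫ A, f A⁻¹ ∂(haarB B) = ∫ A, f A ∂(haarB B)

/-- SC1. Let `G(u,v)` be the left side and `K = ∫ (∑_j |A_jb|² c_j)^m`.
(1) `G(u,u) = (∑_{i∈B} |u_i|²)^m K`. If `u = 0` on `B` this is clear (`m = 0` separately).
Otherwise let `r² = ∑_{i∈B} |u_i|²`; by TRN there is `A₀ ∈ U_B` with `A₀ e_b = u_B / r`, so for
`i ∈ B`: `(A u)_i = r (A A₀)_{ib}` (entries of `A` off the block `B × B` vanish), and right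
invariance (INV) gives the claim.
(2) For `|ζ| = 1`: `∑_{i∈B} c_i conj((A(u+ζv))_i) (A(u+ζv))_i = P + ζ Q + ζ⁻¹ R` with
`R = ∑ c_i conj((Av)_i) (Au)_i`. Multiply the `m`-th power by `ζ^m` :
`(ζ(P + ζ Q + ζ⁻¹ R))^m = (R + P ζ + Q ζ²)^m`. Sum over the `2m+1`-st roots of unity `ζ = z^t` (ROU):
`∑_ζ ζ^m G(u+ζv,u+ζv) = (2m+1) G(u,v)`. In the same way
`∑_ζ ζ^m (∑_{i∈B} |u_i+ζ v_i|²)^m = (2m+1) (∑_{i∈B} conj(v_i) u_i)^m`. Compare with (1). All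
integrands are continuous on the compact group `U_B`, hence integrable. -/
def SC1Stmt : Prop := ∀ (n : ℕ) (B : Finset (Fin n)) (b : Fin n), b ∈ B →
  ∀ (m : ℕ) (u v : Fin n → ℂ) (c : Fin n → ℝ),
  ∫ A : UB B, (∑ i ∈ B, (c i : ℂ) * conj ((((A : UU n) : Matrix (Fin n) (Fin n) ℂ) *ᵥ v) i) *
      (((A : UU n) : Matrix (Fin n) (Fin n) ℂ) *ᵥ u) i) ^ m ∂(haarB B) =
    (∑ i ∈ B, conj (v i) * u i) ^ m *
      ∫ A : UB B, ((∑ j ∈ B, ‖((A : UU n) : Matrix (Fin n) (Fin n) ℂ) j b‖ ^ 2 * c j : ℝ) : ℂ) ^ m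
        ∂(haarB B)

/-- SCH. `bil u v (A⁻¹ (dg c) A) = ∑_i c_i conj((Av)_i) (Au)_i = s + X(A)` with
`s = ∑_{i∉B} c_i conj(v_i) u_i` (for `i ∉ B` one has `(Au)_i = u_i`) and `X(A)` the sum over `i ∈ B`;
`bil u v (dg (TB B A c)) = s + V(A) q` with `q = ∑_{i∈B} conj(v_i) u_i` and
`V(A) = ∑_{j∈B} |A_jb|² c_j`, `b = min B`. Expand both `k`-th powers by the binomial theorem and use
SC1 for every power `m ≤ k`. For `B = ∅` both integrands are `s^k`. -/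
def SCHStmt : Prop := ∀ (n : ℕ) (B : Finset (Fin n)) (k : ℕ) (u v : Fin n → ℂ) (c : Fin n → ℝ),
  ∫ A : UB B, bil u v ((((A : UU n)⁻¹ : UU n) : Matrix (Fin n) (Fin n) ℂ) * dg c *
      ((A : UU n) : Matrix (Fin n) (Fin n) ℂ)) ^ k ∂(haarB B) =
    ∫ A : UB B, bil u v (dg (TB B (A : UU n) c)) ^ k ∂(haarB B)

/-- the number of permutations of four places that fix the word `(i,j,k,l)` -/
noncomputable def per {n : ℕ} (i j k l : Fin n) : ℝ :=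
  1 + (if i = j then 1 else 0) + (if i = k then 1 else 0) + (if i = l then 1 else 0) +
    (if j = k then 1 else 0) + (if j = l then 1 else 0) + (if k = l then 1 else 0) +
    (if i = j ∧ k = l then 1 else 0) + (if i = k ∧ j = l then 1 else 0) +
    (if i = l ∧ j = k then 1 else 0) + (if i = j ∧ j = k then 2 else 0) +
    (if i = j ∧ j = l then 2 else 0) + (if i = k ∧ k = l then 2 else 0) +
    (if j = k ∧ k = l then 2 else 0) + (if i = j ∧ j = k ∧ k = l then 6 else 0)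

/-- MO1. Fourth moments of a column of a random unitary matrix. By inversion invariance (INV) one
may replace `|A_{jb}|` by `|A_{bj}|` (`A⁻¹ = A*`); put `z_l = A_{bl}`, `l ∈ B`.
SC1 with `c = ` indicator of `b`, `m = 4` gives
`∫ (∑_l z_l u_l)^4 conj(∑_l z_l v_l)^4 = μ (∑_{l∈B} conj(v_l) u_l)^4` for all `u, v`, where
`μ = ∫ |A_bb|^8`. Polarization `24 y₁y₂y₃y₄ = ∑_{S ⊆ {1,2,3,4}} (-1)^{4-|S|} (∑_{s∈S} y_s)^4` in both
factors, with `u = ∑_{s∈S} e_{i_s}`, `v = ∑_{s∈S'} e_{i_s}` and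
`∑_l conj(v_l) u_l = ∑_{s∈S, s'∈S'} [i_s = i_{s'}]`, gives
`576 ∫ |z_i z_j z_k z_l|² = 24 μ ∑_{σ ∈ S_4} ∏_s [i_s = i_{σ s}] = 24 μ per(i,j,k,l)`. -/
def MO1Stmt : Prop := ∀ (n : ℕ) (B : Finset (Fin n)) (b : Fin n), b ∈ B → ∃ κ : ℝ,
  ∀ i ∈ B, ∀ j ∈ B, ∀ k ∈ B, ∀ l ∈ B,
    ∫ A : UB B, ‖((A : UU n) : Matrix (Fin n) (Fin n) ℂ) i b‖ ^ 2 *
      ‖((A : UU n) : Matrix (Fin n) (Fin n) ℂ) j b‖ ^ 2 *
      ‖((A : UU n) : Matrix (Fin n) (Fin n) ℂ) k b‖ ^ 2 *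
      ‖((A : UU n) : Matrix (Fin n) (Fin n) ℂ) l b‖ ^ 2 ∂(haarB B) = κ * per i j k l

/-- the fourth moment of `∑ D_j a_j`, `D` uniform on the simplex over `B` -/
noncomputable def q4 {n : ℕ} (B : Finset (Fin n)) (a : Fin n → ℝ) : ℝ :=
  ((∑ j ∈ B, a j) ^ 4 + 6 * (∑ j ∈ B, a j) ^ 2 * (∑ j ∈ B, a j ^ 2) +
    3 * (∑ j ∈ B, a j ^ 2) ^ 2 + 8 * (∑ j ∈ B, a j) * (∑ j ∈ B, a j ^ 3) +
    6 * ∑ j ∈ B, a j ^ 4) /
  ((B.card : ℝ) * (B.card + 1) * (B.card + 2) * (B.card + 3))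

/-- MO2. Expand the fourth power as a sum over `(i,j,k,l) ∈ B⁴`, use MO1 and sum `per`:
`∑ a_i a_j a_k a_l per(i,j,k,l) = p₁⁴ + 6 p₁² p₂ + 3 p₂² + 8 p₁ p₃ + 6 p₄` with `p_r = ∑_{j∈B} a_j^r`.
The constant is found from `a = 1` on `B`: the column `b` of `A` is a unit vector, so
`1 = κ (β⁴ + 6β³ + 3β² + 8β² + 6β) = κ β(β+1)(β+2)(β+3)`, `β = |B|`. -/
def MO2Stmt : Prop := ∀ (n : ℕ) (B : Finset (Fin n)) (b : Fin n), b ∈ B → ∀ a : Fin n → ℝ,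
  ∫ A : UB B, (∑ j ∈ B, ‖((A : UU n) : Matrix (Fin n) (Fin n) ℂ) j b‖ ^ 2 * a j) ^ 4
    ∂(haarB B) = q4 B a

/-- IN4. Let `β = |B|`, `a_j = α + δ_j` with `∑_{j∈B} δ_j = 0`, `d_r = ∑ δ_j^r`. Then
`p₁ = βα`, `p₂ = βα² + d₂`, `p₃ = βα³ + 3αd₂ + d₃`, `p₄ = βα⁴ + 6α²d₂ + 4αd₃ + d₄`, and
`β(β+1)(β+2)(β+3) ((p₂/β)² - q4) =
  2(β+3)(β-2)(β+2) α² d₂ - 8(β+3) α d₃ + (β²+6β+8+6/β) d₂² - 6 d₄`.
For `β = 1` all `d_r` vanish. For `β = 2`: `δ = (t,-t)`, value `96 t⁴`. For `β ≥ 3` use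
`d₃² ≤ d₂ d₄` (Cauchy), `0 ≤ d₄ ≤ d₂²`: completing the square in `α` the value is at least
`-8(β+3) d₄/(β²-4) + (β²+6β+8) d₂² - 6 d₄ ≥ 0`, because
`8(β+3) + 6(β²-4) ≤ (β²-4)(β²+6β+8)` for `β ≥ 3`. -/
def IN4Stmt : Prop := ∀ (n : ℕ) (B : Finset (Fin n)), B.Nonempty → ∀ a : Fin n → ℝ,
  q4 B a ≤ ((∑ j ∈ B, a j ^ 2) / B.card) ^ 2

/-- CE1. Both sides are invariant under `c ↦ c + t`, so one may assume `∑_{B} c = 0`
(or expand everything in power sums). With `p_r = ∑_B c^r`, `β = |B|`, `p₁ = 0`: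
`∑_{m∈B} (∑_i y_i² - (∑_i y_i)²/β)` with `y_i = (c_i - c_m)²`, `∑_i y_i = p₂ + β c_m²`, is
`(2βp₄ + 6p₂²) - (3p₂² + βp₄) = βp₄ + 3p₂²`, half of `∑_{i,m} (c_i-c_m)⁴ = 2βp₄ + 6p₂²`. -/
def CE1Stmt : Prop := ∀ (n : ℕ) (B : Finset (Fin n)) (c : Fin n → ℝ),
  ∑ m ∈ B, ∑ i, H47.dv B (fun j => (c j - c m) ^ 2) i ^ 2 =
    (1 / 2) * ∑ i ∈ B, ∑ m ∈ B, (c i - c m) ^ 4

/-- CER. For `B = ∅` both sides vanish (`dv ∅ = 0`, `TB ∅ A c = c`). Otherwise, with `b = min B`,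
`V = ∑_{j∈B} |A_jb|² c_j`: `gg c - gg (TB B A c) = ½∑_{i,m∈B}(c_i-c_m)⁴ +
∑_{m∉B} (∑_{i∈B}(c_i-c_m)⁴ - β (V-c_m)⁴)`, and `V - c_m = ∑_{j∈B} |A_jb|² (c_j-c_m)`. Integrate (MO2):
`∫ (V-c_m)⁴ = q4 B (c-c_m) ≤ ((1/β) ∑_{i∈B}(c_i-c_m)²)²` (IN4). On the left side the terms `m ∈ B`
give `½∑_{i,m∈B}(c_i-c_m)⁴` (CE1), and for `m ∉ B`
`∑_i (dv B y)_i² = ∑_{i∈B}(c_i-c_m)⁴ - (1/β)(∑_{i∈B}(c_i-c_m)²)²`. -/
def CERStmt : Prop := ∀ (n : ℕ) (B : Finset (Fin n)) (c : Fin n → ℝ),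
  ∑ m, ∑ i, H47.dv B (fun j => (c j - c m) ^ 2) i ^ 2 ≤
    gg c - ∫ A : UB B, gg (TB B (A : UU n) c) ∂(haarB B)

/-- OSC. Every entry of `TB B A c` is a convex combination of entries of `c` (the column `b ∈ B` of
`A ∈ U_B` is a unit vector supported on `B`), and the entries on `B` are all equal. Use
`pi_norm_le_iff_of_nonneg`, `norm_le_pi_norm`. -/
def OSCStmt : Prop := ∀ (n : ℕ) (B : Finset (Fin n)) (A : UU n), A ∈ UB B → ∀ c : Fin n → ℝ,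
  osc (TB B A c) ≤ osc c

/-- SUP (maximum principle). Let `G c = gg c * osc c ^ (k-4)`. `f` is continuous,
`f (c + t) = f c`, `f (s c) = s^k f c` (`IsRidge`); `gg c = 0` or `osc c = 0` only for constant `c`,
and then `f c = 0`. By compactness of `{c : c 0 = 0, osc c = 1}` there is a nonconstant `c*` with
`|f c| ≤ R G(c)` for all `c`, `R = |f c*| / G c* > 0`. With `u = conj (f c*) / |f c*|`:
`x R G(c*) = x |f c*| = ∑_B w_B (R G(c*) - Re ∫ u f(TB B A c*))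
 ≥ ∑_B w_B R (G(c*) - ∫ G(TB B A c*)) ≥ R osc(c*)^(k-4) ∑_B w_B (gg c* - ∫ gg(TB B A c*))` (OSC)
` ≥ R osc(c*)^(k-4) ∑_m ∑_B w_B ∑_i dv B y^m i ^2` (CER, `y^m_j = (c_j-c_m)²`)
` ≥ R osc(c*)^(k-4) μ ∑_m ∑_i dv univ y^m i ^2 = μ R G(c*)` (`OneBody`, and CE1 with `B = univ`). -/
def SUPStmt : Prop := ∀ (n k : ℕ), 4 ≤ k → ∀ w : Finset (Fin n) → ℝ, (∀ B, 0 ≤ w B) →
  ∀ (μ x : ℝ) (f : (Fin n → ℝ) → ℂ), OneBody w μ → IsRidge k f → (∃ c, f c ≠ 0) →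
  EigFun w x f → μ ≤ x

/-- ONE. `Pool.Agent.Helper64_FR.H47.upb` and the first half of the proof of
`Pool.Agent.Helper64_FR.H47.up` (Helper47_FR/Up.lean): for `d = dv univ y ≠ 0` they give
`lamMin ≤ x` and `x ∑ d_i² ≤ ∑_B w_B ∑_i (dv B d i)²`, and `dv B d = dv B y` because `d - y` is
constant. If `dv univ y = 0` then the left side is `0` and the right side is nonnegative. -/
def ONEStmt : Prop := ∀ (n : ℕ) (α : URep n), α.IsAdjoint → ∀ w : Finset (Fin n) → ℝ,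
  (∀ B, 0 ≤ w B) → OneBody w (α.lamMin w)

/-- WTS. `P_i := avg {i}` commutes with every `avg B` (if `i ∈ B` then `U_i ≤ U_B` and
`P_i P_B = P_B P_i = P_B`; otherwise `U_i` and `U_B` commute). If some `h ∈ U_{i}` moves `v`, then
`v' = v - P_i v ≠ 0`, it is again an eigenvector, and `P_B v' = 0` for every `B ∋ i`. Hence
`x |v'|² = ⟨v', L v'⟩ ≥ ∑_{B ∋ i} w_B |v'|²` (`1 - P_B ≥ 0`). And
`OneBody` with `y = e_i` gives `μ (1 - 1/n) ≤ ∑_{B∋i} w_B (1 - 1/|B|) ≤ (1 - 1/n) ∑_{B∋i} w_B`,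
so `μ ≤ ∑_{B∋i} w_B ≤ x`. Use Helper64_FR/FIX.lean and LOW.lean (operators `ρ.P B`, `ρ.op h`). -/
def WTSStmt : Prop := ∀ (n : ℕ), 2 ≤ n → ∀ (ρ : URep n) (w : Finset (Fin n) → ℝ), (∀ B, 0 ≤ w B) →
  ∀ μ : ℝ, OneBody w μ → ∀ (x : ℝ) (v : Fin ρ.dim → ℂ), v ≠ 0 →
  ρ.lap w *ᵥ v = (x : ℂ) • v →
  μ ≤ x ∨ ∀ (i : Fin n), ∀ h ∈ UB ({i} : Finset (Fin n)), ρ.mat h *ᵥ v = v

/-- SPN. `T v` lies in the span of the functions `orb k p q g`, and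
`orb k p q g M = (bil u v' M)^k` with `u_j = g_{jq}`, `v'_i = g_{ip}` and
`∑_i conj(v'_i) u_i = (g* g)_{pq} = 0`. Use `Submodule.mem_span_range_iff_exists_finsupp` or
`Submodule.span_induction` to write an element of the span as a finite sum. -/
def SPNStmt : Prop := ∀ (n k : ℕ) (ρ : URep n) (p q : Fin n), p ≠ q →
  ∀ T : (Fin ρ.dim → ℂ) →ₗ[ℂ] (Matrix (Fin n) (Fin n) ℂ → ℂ), IsBoseMap k ρ p q T →
  ∀ v : Fin ρ.dim → ℂ, ∃ (N : ℕ) (a : Fin N → ℂ) (u v' : Fin N → Fin n → ℂ),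
    (∀ t, ∑ i, conj (v' t i) * u t i = 0) ∧ ∀ M, T v M = ∑ t, a t * bil (u t) (v' t) M ^ k

/-- EIG. For every `M` the map `v ↦ T v M` is a linear functional on `Fin ρ.dim → ℂ`, so it commutes
with the (entrywise) integral: `T (avg B v) M = ∫_{U_B} T (ρ(A) v) M = ∫_{U_B} T v (A⁻¹ M A)`. At
`M = dg c` write `T v` as in SPN and apply SCH to every term:
`∫ T v (A⁻¹ (dg c) A) = ∫ T v (dg (TB B A c))`. Sum over `B` with the weights `w_B`. -/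
def EIGStmt : Prop := ∀ (n k : ℕ) (ρ : URep n) (p q : Fin n), p ≠ q →
  ∀ T : (Fin ρ.dim → ℂ) →ₗ[ℂ] (Matrix (Fin n) (Fin n) ℂ → ℂ), IsBoseMap k ρ p q T →
  ∀ (w : Finset (Fin n) → ℝ) (x : ℝ) (v : Fin ρ.dim → ℂ), ρ.lap w *ᵥ v = (x : ℂ) • v →
  EigFun w x (fun c => T v (dg c))

/-- NDG. Let `T v = ∑_t a_t (bil u_t v'_t)^k` (SPN) and `x_{t,i} = conj(v'_{t,i}) u_{t,i}`.
(1) `∑_t a_t (∑_i x_{t,i} c_i)^k = 0` for all real `c`. Polarization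
`k! ∏_{s<k} x_{i_s} = ∑_{S ⊆ range k} (-1)^(k-|S|) (∑_{s∈S} x_{i_s})^k` (with
`c = ∑_{s∈S} e_{i_s}`) gives `∑_t a_t ∏_{s<k} x_{t,i_s} = 0` for every word `i : Fin k → Fin n`.
(2) `v` is fixed by every diagonal unitary matrix (a product of elements of the `U_{i}`), so
`T v M = T v (D⁻¹ M D)` for every diagonal unitary `D`. Average over the finite group of the
diagonal matrices `D` whose entries are `N`-th roots of unity, `N > k`: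
`bil u v' (D⁻¹ M D) = ∑_{i,j} conj(v'_i) conj(D_i) M_ij D_j u_j`; expanding the `k`-th power over
words `I, J`, the average of `∏_s conj(D_{i_s}) D_{j_s}` is `1` if `J` is a rearrangement of `I`, and
`0` otherwise. If it is a rearrangement, `∏_s conj(v'_{i_s}) u_{j_s} = ∏_s x_{i_s}`; so the average of
`T v (D⁻¹ M D)` is `∑_{I,J} [J ~ I] (∏ M_{i_s j_s}) ∑_t a_t ∏_s x_{t,i_s} = 0` by (1). So `T v = 0`,
and `v = 0` by injectivity. -/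
def NDGStmt : Prop := ∀ (n k : ℕ) (ρ : URep n) (p q : Fin n), p ≠ q →
  ∀ T : (Fin ρ.dim → ℂ) →ₗ[ℂ] (Matrix (Fin n) (Fin n) ℂ → ℂ), IsBoseMap k ρ p q T →
  ∀ v : Fin ρ.dim → ℂ, (∀ (i : Fin n), ∀ h ∈ UB ({i} : Finset (Fin n)), ρ.mat h *ᵥ v = v) →
  (∀ c : Fin n → ℝ, T v (dg c) = 0) → v = 0

/-- RED (assembly of the representation part). Every eigenvalue `x` of `lap w` on a Bose
representation satisfies `μ ≤ x` or has a nonzero ridge eigenfunction. From WTS, NDG, EIG, SPN: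
if `μ ≤ x` fails, `v` is torus invariant, so `f c = T v (dg c)` is not identically zero; it is a
ridge function by SPN (`bil u v' (dg c) = ∑_i conj(v'_i) u_i c_i`). The dimension is positive because
`orb k p q 1` takes the value `1` at the matrix unit `E_pq`. -/
def REDStmt : Prop := ∀ (n k : ℕ), 2 ≤ n → ∀ (ρ : URep n), IsBose k ρ → 0 < ρ.dim ∧
  ∀ w : Finset (Fin n) → ℝ, (∀ B, 0 ≤ w B) → ∀ μ : ℝ, OneBody w μ →
  ∀ (x : ℝ) (v : Fin ρ.dim → ℂ), v ≠ 0 → ρ.lap w *ᵥ v = (x : ℂ) • v →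
  μ ≤ x ∨ ∃ f : (Fin n → ℝ) → ℂ, IsRidge k f ∧ (∃ c, f c ≠ 0) ∧ EigFun w x f

end Pool.Agent.BSE
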