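import Pool.Agent.BSE.Defs

/-!
# Existence and irreducibility of the Bose representations (problem MP_3b0ba7_pr)
-/

open MeasureTheory Matrix Finset
open scoped ComplexConjugate

namespace Pool.Agent.BSE

open Pool.Agent.Helper64_FR

/-- UNI (unitarian trick). Let `H = ∫ R(g)* R(g) dg` over the Haar probability measure of `U(n)`
(`Pool.Agent.Helper64_FR.haarU n` or `Measure.haarMeasure ⊤`), entry by entry; `R` is continuous and
the group compact. `H` is positive definite and `R(h)* H R(h) = H` (right invariance). Write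
`H = S* S` with `S` invertible (e.g. `S` the positive square root, or Cholesky / spectral theorem)
and put `ρ(g) = S R(g) S⁻¹`; then `ρ(g)* ρ(g) = 1`. -/
def UNIStmt : Prop := ∀ (n d : ℕ) (R : UU n →* Matrix (Fin d) (Fin d) ℂ),
  (Continuous fun g : UU n => R g) →
  ∃ (ρ : URep n) (e : ρ.dim = d) (S S' : Matrix (Fin d) (Fin d) ℂ), S * S' = 1 ∧ S' * S = 1 ∧
    ∀ g : UU n, (ρ.mat g).submatrix (Fin.cast e.symm) (Fin.cast e.symm) = S * R g * S'

/-- EXI. Let `V` be the span of the functions `orb k p q g`. It is finite dimensional (it is contained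
in the image of the finite dimensional space of tensors: `orb k p q g M = ∑_{I,J} ∏_s conj(g_{i_s p})
M_{i_s j_s} g_{j_s q}`, a combination of the finitely many functions `M ↦ ∏_s M_{i_s j_s}`) and
invariant under `(g Φ)(M) = Φ(g⁻¹ M g)` (`g (orb h) = orb (g h)`). Choose a basis `b` of `V`; the
matrix `R(g)` of the action is a homomorphism; it is continuous: choose finitely many matrices
`M_1, ..., M_d` such that `Φ ↦ (Φ(M_1),...,Φ(M_d))` is injective on `V` (finite dimensional space of
functions), and `g ↦ (g b_j)(M_i)` is continuous. Apply UNI and put `T v = ∑_j (S' v)_j b_j`. -/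
def EXIStmt : Prop := ∀ (n k : ℕ) (p q : Fin n), p ≠ q → ∃ (ρ : URep n)
  (T : (Fin ρ.dim → ℂ) →ₗ[ℂ] (Matrix (Fin n) (Fin n) ℂ → ℂ)), IsBoseMap k ρ p q T

/-- IRR. Let `W` be an invariant subspace, `W'` its orthogonal complement (invariant because `ρ` is
unitary), `Φ₀ = orb k p q 1 = (M_pq)^k = T v₀`, `v₀ = w + w'`. For a diagonal unitary matrix `D`,
`Φ₀(D⁻¹ M D) = (conj(D_p) D_q)^k Φ₀(M)`, so `w` and `w'` satisfy the same equation. Claim: a function
`Φ = T w` with `Φ(D⁻¹ M D) = (conj(D_p) D_q)^k Φ(M)` for all diagonal unitary `D` is a multiple of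
`Φ₀`: write `Φ` as a finite sum of `a_t (∑_{i,j} conj(v'_i) M_ij u_j)^k` (`SPNStmt` in Stmts.lean, or
directly from the span), expand over words `I, J`, and average over the finite group of diagonal
matrices whose entries are `N`-th roots of unity, `N > 2k`, against the character
`conj((conj(D_p) D_q)^k)`: the term `(I, J)` survives only if
`∏_s conj(D_{i_s}) D_{j_s} = (conj(D_p) D_q)^k` identically, that is `#I - #J = k (e_p - e_q)` as
integer vectors, which forces `I = (p,...,p)`, `J = (q,...,q)`. So `w = a v₀` or `w = 0`. If `w ≠ 0`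
then `v₀ ∈ W`, and the orbit of `v₀` spans everything (`range_eq`, `inj`), `W = ⊤`; if `w = 0` then
`v₀ ∈ W'`, so `W' = ⊤`, `W = ⊥`. The dimension is positive because `Φ₀(E_pq) = 1`. -/
def IRRStmt : Prop := ∀ (n k : ℕ) (ρ : URep n), IsBose k ρ → ρ.Irred

end Pool.Agent.BSE
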