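import Pool.Agent.BSE.Stmts
import Pool.Agent.BSE.Defs3

/-!
# Statements of the modules for the level `k = 3` (graphs)

`F` is a real symmetric tensor of order 3 on `Fin n` with zero marginals (`Tin3`); `cub F c` its
cubic form; `ip3` the scalar product in which the monomials are orthonormal.
-/

open MeasureTheory Matrix Finset
open scoped ComplexConjugate

namespace Pool.Agent.BSE

open Pool.Agent.Helper64_FR

/-- MO3. Moments of `s = |A_{pb}|²` on `U_{p,q}`, `b ∈ {p,q}`: `∫ s^m = 1/(m+1)`, `m = 0, 1, 2, 3`.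
The column `b` is a unit vector supported on `{p,q}`, so `|A_{qb}|² = 1 - s`. MO2 with
`B = {p,q}`, `a p = 1 + t`, `a q = 1` gives
`∫ (1 + t s)^4 = (1/5) ∑_{i ≤ 4} (1+t)^i = 1 + 2t + 2t² + t³ + t⁴/5` for every real `t`; compare at
`t = 1, -1, 2, -2`. (`m = 0`: `haarB` is a probability measure, INV.) -/
def MO3Stmt : Prop := ∀ (n : ℕ) (p q b : Fin n), p ≠ q → b ∈ ({p, q} : Finset (Fin n)) →
  (∀ A ∈ UB ({p, q} : Finset (Fin n)), ‖(A : Matrix (Fin n) (Fin n) ℂ) q b‖ ^ 2 =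
      1 - ‖(A : Matrix (Fin n) (Fin n) ℂ) p b‖ ^ 2) ∧
  ∀ m : ℕ, m ≤ 3 → ∫ A : UB ({p, q} : Finset (Fin n)),
    (‖((A : UU n) : Matrix (Fin n) (Fin n) ℂ) p b‖ ^ 2) ^ m ∂(haarB ({p, q} : Finset (Fin n))) =
      1 / ((m : ℝ) + 1)

/-- UN3. A symmetric tensor with vanishing cubic form is zero. Polarization: for
`t(x,y,z) = ∑ F_ijk x_i y_j z_k` (symmetric), `6 t(x,y,z) = cub(x+y+z) - cub(x+y) - cub(x+z) -
cub(y+z) + cub x + cub y + cub z`; take `x, y, z` = basis vectors (`Pi.single`). -/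
def UN3Stmt : Prop := ∀ (n : ℕ) (F : Fin n → Fin n → Fin n → ℝ), Sym3 F →
  (∀ c, cub F c = 0) → ∀ i j k, F i j k = 0

/-- AV3. `∑_a g_a (rep p q u c)_a = ∑_i tw_i (rp g)_i c_i` (split off the indices `p` and `q`).
Apply this three times: `cub F (rep p q u c) = ∑ tw_i tw_j tw_k (rp rp rp F)_ijk c_i c_j c_k`, and
integrate over `u ∈ [0,1]` (polynomials). `PT` is symmetric because `F` is. -/
def AV3Stmt : Prop := ∀ (n : ℕ) (p q : Fin n), p ≠ q → ∀ F : Fin n → Fin n → Fin n → ℝ, Sym3 F →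
  Sym3 (PT p q F) ∧
  ∀ c, ∫ u in (0:ℝ)..1, cub F (rep p q u c) = cub (PT p q F) c

/-- QF3, the pair inequality of the certificate (helper61 has the splitting lemmas). -/
def QF3Stmt : Prop := ∀ (n : ℕ) (p q : Fin n), p ≠ q → ∀ F : Fin n → Fin n → Fin n → ℝ, Sym3 F →
  kpair F p q ≤ 2 * (ip3 F F - ip3 F (PT p q F))

/-- TO3, the total inequality of the certificate. -/
def TO3Stmt : Prop := ∀ (n : ℕ) (F : Fin n → Fin n → Fin n → ℝ), Sym3 F → Tin3 F →
  2 * n * ip3 F F ≤ ∑ p, ∑ q, kpair F p q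

/-- RF3. Reduction to real tensors. Let `f c = ∑_t a_t (∑_i x_{t,i} c_i)^3`,
`Φ_ijk = ∑_t a_t x_{t,i} x_{t,j} x_{t,k}` (symmetric, zero marginals because `∑_i x_{t,i} = 0`), so
`f c = ∑ Φ_ijk c_i c_j c_k = cub (Re Φ) c + i cub (Im Φ) c`. One of the two is not identically zero;
call its tensor `F`. `A ↦ cub F (TB B A c)` is continuous on the compact group `U_B`, hence
integrable (polynomial in the `|A_jb|²`), so real and imaginary parts of `EigFun` give the equation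
for `F`. -/
def RF3Stmt : Prop := ∀ (n : ℕ) (w : Finset (Fin n) → ℝ) (x : ℝ) (f : (Fin n → ℝ) → ℂ),
  IsRidge 3 f → (∃ c, f c ≠ 0) → EigFun w x f →
  ∃ F : Fin n → Fin n → Fin n → ℝ, Sym3 F ∧ Tin3 F ∧ (∃ c, cub F c ≠ 0) ∧
    ∀ c : Fin n → ℝ, ∑ B : Finset (Fin n), w B *
      (cub F c - ∫ A : UB B, cub F (TB B (A : UU n) c) ∂(haarB B)) = x * cub F c

/-- IN3. The averages. (1) `|B| ≤ 1`: `TB B A c = c` (for `B = {b}` the entry `A_bb` has modulus 1)
and `haarB B` is a probability measure. (2) `B = {p,q}`: with `s = |A_{pb}|²`, `b = min B`,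
`TB B A c = rep p q s c`, and `u ↦ cub F (rep p q u c)` is a polynomial of degree at most 3 in `u`
(write it as `α₀ + α₁ u + α₂ u² + α₃ u³`, by interpolation or from the expansion of AV3); both
integrals equal `α₀ + α₁/2 + α₂/3 + α₃/4` (MO3). (3) `B = univ`: `TB` is a constant vector and
`cub F` of a constant vector is `0`. -/
def IN3Stmt : Prop := ∀ (n : ℕ) (F : Fin n → Fin n → Fin n → ℝ), Sym3 F → Tin3 F →
  (∀ B : Finset (Fin n), B.card ≤ 1 → ∀ c,
    ∫ A : UB B, cub F (TB B (A : UU n) c) ∂(haarB B) = cub F c) ∧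
  (∀ p q : Fin n, p ≠ q → ∀ c, ∫ A : UB ({p, q} : Finset (Fin n)),
    cub F (TB ({p, q} : Finset (Fin n)) (A : UU n) c) ∂(haarB ({p, q} : Finset (Fin n))) =
      ∫ u in (0:ℝ)..1, cub F (rep p q u c)) ∧
  (∀ c, ∫ A : UB (Finset.univ : Finset (Fin n)),
    cub F (TB (Finset.univ : Finset (Fin n)) (A : UU n) c) ∂(haarB Finset.univ) = 0)

/-- CUB. The level `k = 3` for weighted graphs (blocks of cardinality at most 2, and the full
block). Assembly: RF3; IN3 and AV3 turn the equation into `∑_B w_B cub(G_B) c = x cub(F) c` with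
`G_B = 0` (`|B| ≤ 1`), `F - PT p q F` (`B = {p,q}`), `F` (`B = univ`, `n ≥ 3`); UN3 gives
`∑_B w_B G_B = x F`, hence `x ip3 F F = ∑_B w_B ip3 F G_B`. QF3: `ip3 F G_{pq} ≥ ½ kpair F p q`.
`OneBody` for the vectors `y_i = cf F i k l` (weight `kap k l`) and `y_i = cf F i i m` (weight 1/3):
`μ K_univ ≤ ∑_{pq} w_pq ½ kpair F p q + w_univ K_univ`, `K_univ = (1/2n) ∑_{p,q} kpair F p q ≥ ip3 F F`
(TO3). If `μ ≤ w_univ` then `x ip3 F F ≥ w_univ ip3 F F`, otherwise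
`x ip3 F F ≥ (μ - w_univ) K_univ + w_univ ip3 F F ≥ μ ip3 F F`; `ip3 F F > 0`. -/
def CUBStmt : Prop := ∀ (n : ℕ) (w : Finset (Fin n) → ℝ), (∀ B, 0 ≤ w B) →
  (∀ B, w B ≠ 0 → B.card ≤ 2 ∨ B = Finset.univ) →
  ∀ (μ x : ℝ) (f : (Fin n → ℝ) → ℂ), OneBody w μ → IsRidge 3 f → (∃ c, f c ≠ 0) →
  EigFun w x f → μ ≤ x

end Pool.Agent.BSE
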