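import Pool.Agent.BSE.Stmts

/-!
# Irreducible representations with exactly one positive entry: definitions and statements
(problem MP_3b0ba7_pr)

`rowFun u v` is the function `(M_1,...,M_k) ↦ ∏_s ⟨v_s, M_s u⟩` on `k`-tuples of matrices; the span
of the `rowFun u v` with all `v_s ⊥ u` is the traceless part of `Sym^k V ⊗ (V*)^{⊗k}`, `V = ℂⁿ`; its
irreducible subrepresentations are exactly the `ρ_{(k,0,...,0,-β_l,...,-β_1)}`, `β` a partition of
`k` with at most `n - 1` parts. The proof of every module is its docstring.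
-/

open MeasureTheory Matrix Finset
open scoped ComplexConjugate

namespace Pool.Agent.BSE

open Pool.Agent.Helper64_FR

variable {n : ℕ}

/-- the function `(M_1,...,M_k) ↦ ∏_s ⟨v_s, M_s u⟩` -/
noncomputable def rowFun {k : ℕ} (u : Fin n → ℂ) (v : Fin k → Fin n → ℂ) :
    (Fin k → Matrix (Fin n) (Fin n) ℂ) → ℂ :=
  fun M => ∏ s, bil u (v s) (M s)

/-- The traceless part of `Sym^k V ⊗ (V*)^{⊗k}`, `V = ℂⁿ`, as a space of functions of `k`
matrices: the span of the functions `(M_1,...,M_k) ↦ ∏_s ⟨v_s, M_s u⟩` with `⟨v_s, u⟩ = 0` for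
all `s`. -/
noncomputable def RowSpace (n k : ℕ) : Submodule ℂ ((Fin k → Matrix (Fin n) (Fin n) ℂ) → ℂ) :=
  Submodule.span ℂ {Φ | ∃ (u : Fin n → ℂ) (v : Fin k → Fin n → ℂ),
    (∀ s, ∑ i, conj (v s i) * u i = 0) ∧ Φ = rowFun u v}

/-- `T` embeds `ρ` into `RowSpace n k`, on which `U(n)` acts by
`(g Φ)(M_1,...,M_k) = Φ(g⁻¹ M_1 g, ..., g⁻¹ M_k g)`. -/
structure IsRowMap (k : ℕ) (ρ : URep n)
    (T : (Fin ρ.dim → ℂ) →ₗ[ℂ] ((Fin k → Matrix (Fin n) (Fin n) ℂ) → ℂ)) : Prop where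
  inj : Function.Injective T
  mem : ∀ v, T v ∈ RowSpace n k
  equiv : ∀ (g : UU n) (v : Fin ρ.dim → ℂ) (M : Fin k → Matrix (Fin n) (Fin n) ℂ),
    T (ρ.mat g *ᵥ v) M = T v (fun s => ((g⁻¹ : UU n) : Matrix (Fin n) (Fin n) ℂ) * M s *
      (g : Matrix (Fin n) (Fin n) ℂ))

/-- `ρ` is (isomorphic to) a subrepresentation of the traceless part of `Sym^k V ⊗ (V*)^{⊗k}`; for
an irreducible `ρ` this says that `ρ = ρ_{(k,0,...,0,-β_l,...,-β_1)}` for a partition `β` of `k`. -/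
def IsRow (k : ℕ) (ρ : URep n) : Prop :=
  ∃ T : (Fin ρ.dim → ℂ) →ₗ[ℂ] ((Fin k → Matrix (Fin n) (Fin n) ℂ) → ℂ), IsRowMap k ρ T

/-- the complex conjugate (dual) representation -/
noncomputable def cj (ρ : URep n) : URep n where
  dim := ρ.dim
  hom :=
    { toFun := fun g => ⟨(ρ.mat g).map (starRingEnd ℂ), by
        have h := (ρ.hom g).2
        rw [Matrix.mem_unitaryGroup_iff] at h ⊢
        have h2 : star ((ρ.mat g).map (starRingEnd ℂ)) = (star (ρ.mat g)).map (starRingEnd ℂ) := by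
          ext i j
          simp [Matrix.star_apply]
        rw [h2, ← Matrix.map_mul]
        have h3 : ρ.mat g * star (ρ.mat g) = 1 := h
        rw [h3]
        ext i j
        simp [Matrix.one_apply, apply_ite]⟩
      map_one' := by
        apply Subtype.ext
        ext i j
        simp [URep.mat, Matrix.one_apply, apply_ite]
      map_mul' := by
        intro g h
        apply Subtype.ext
        show (ρ.mat (g * h)).map (starRingEnd ℂ) =
          (ρ.mat g).map (starRingEnd ℂ) * (ρ.mat h).map (starRingEnd ℂ)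
        rw [← Matrix.map_mul]
        congr 1
        simp [URep.mat] }
  cont := by
    apply Continuous.subtype_mk
    refine continuous_matrix fun i j => ?_
    exact Complex.continuous_conj.comp
      ((continuous_apply_apply i j).comp (continuous_subtype_val.comp ρ.cont))

/-- eigenfunction of the Laplacian on functions of a `k`-tuple `c_1, ..., c_k` (the same random
resampling `TB B A` for all `c_s`) -/
def EigFun2 {k : ℕ} (w : Finset (Fin n) → ℝ) (x : ℝ) (f : (Fin k → Fin n → ℝ) → ℂ) : Prop :=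
  ∀ c : Fin k → Fin n → ℝ, ∑ B : Finset (Fin n), (w B : ℂ) *
    (f c - ∫ A : UB B, f (fun s => TB B (A : UU n) (c s)) ∂(haarB B)) = (x : ℂ) * f c

/-- `f` is a finite sum of products of linear forms (one in each `c_s`) that vanish on constants -/
def IsRidge2 {k : ℕ} (f : (Fin k → Fin n → ℝ) → ℂ) : Prop :=
  ∃ (N : ℕ) (a : Fin N → ℂ) (x : Fin N → Fin k → Fin n → ℂ), (∀ t s, ∑ i, x t s i = 0) ∧
    ∀ c : Fin k → Fin n → ℝ, f c = ∑ t, a t * ∏ s, ∑ i, x t s i * (c s i : ℂ)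

/-- SR1. If `u = 0` on `B` both sides vanish, or are `1` for `S = ∅`. Otherwise let
`r² = ∑_{i∈B} |u_i|²`, `A₀ ∈ U_B` with `A₀ e_b = u_B / r` (TRN). Right invariance (INV), `A ↦ A A₀⁻¹`:
`(A A₀⁻¹ u)_i = r A_ib` for `i ∈ B`, and with `v'_s = A₀⁻¹ v_s` one has
`∑_{i∈B} conj(v_s i) u_i = r conj(v'_s b)`. So it remains to show
`∫ ∏_{s∈S} (∑_{i∈B} c_si conj((A v'_s)_i) A_ib) = ∏_{s∈S} conj(v'_s b) ∫ ∏_{s∈S} ∑_i |A_ib|² c_si`.
Expand `(A v'_s)_i = ∑_{j∈B} A_ij v'_sj` (`i ∈ B`), `Finset.prod_sum`: the term of the choice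
`j : S → B` is `∏ conj(v'_{s,j_s}) ∫ ∏_s ∑_i c_si conj(A_{i j_s}) A_ib`. If all `j_s = b` this is the
right side. If some `j_s = j ≠ b`, let `m ≥ 1` be the number of such `s` and
`D ∈ U_B` diagonal with entry `ζ = exp(iπ/m)` at `j`; `A ↦ A D` multiplies the integrand by
`conj(ζ)^m = -1`, so the integral is `0`. -/
def SR1Stmt : Prop := ∀ (n k : ℕ) (B : Finset (Fin n)) (b : Fin n), b ∈ B →
  ∀ (S : Finset (Fin k)) (u : Fin n → ℂ) (v : Fin k → Fin n → ℂ) (c : Fin k → Fin n → ℝ),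
  ∫ A : UB B, ∏ s ∈ S, (∑ i ∈ B, (c s i : ℂ) *
      conj ((((A : UU n) : Matrix (Fin n) (Fin n) ℂ) *ᵥ v s) i) *
      (((A : UU n) : Matrix (Fin n) (Fin n) ℂ) *ᵥ u) i) ∂(haarB B) =
    (∏ s ∈ S, ∑ i ∈ B, conj (v s i) * u i) *
      ∫ A : UB B, ∏ s ∈ S,
        ((∑ j ∈ B, ‖((A : UU n) : Matrix (Fin n) (Fin n) ℂ) j b‖ ^ 2 * c s j : ℝ) : ℂ) ∂(haarB B)

/-- SR2. `bil u (v s) (A⁻¹ (dg (c s)) A) = σ_s + X_s(A)` with `σ_s = ∑_{i∉B} c_si conj(v_si) u_i` and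
`X_s(A) = ∑_{i∈B} c_si conj((A v_s)_i) (A u)_i`; `bil u (v s) (dg (TB B A (c s))) = σ_s + V_s(A) q_s`,
`q_s = ∑_{i∈B} conj(v_si) u_i`, `V_s(A) = ∑_{j∈B} |A_jb|² c_sj`, `b = min B`. Expand both products
over the subsets `S` of `Fin k` (`Finset.prod_add`) and apply SR1 to every `S`. The case `B = ∅` is
trivial. (Compare Helper17_BSE/SCH.lean.) -/
def SR2Stmt : Prop := ∀ (n k : ℕ) (B : Finset (Fin n)) (u : Fin n → ℂ) (v : Fin k → Fin n → ℂ)
  (c : Fin k → Fin n → ℝ),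
  ∫ A : UB B, ∏ s, bil u (v s) ((((A : UU n)⁻¹ : UU n) : Matrix (Fin n) (Fin n) ℂ) * dg (c s) *
      ((A : UU n) : Matrix (Fin n) (Fin n) ℂ)) ∂(haarB B) =
    ∫ A : UB B, ∏ s, bil u (v s) (dg (TB B (A : UU n) (c s))) ∂(haarB B)

/-- SP2. Elements of the span `RowSpace n k` are finite sums. -/
def SP2Stmt : Prop := ∀ (n k : ℕ) (Φ : (Fin k → Matrix (Fin n) (Fin n) ℂ) → ℂ), Φ ∈ RowSpace n k →
  ∃ (N : ℕ) (a : Fin N → ℂ) (u : Fin N → Fin n → ℂ) (v : Fin N → Fin k → Fin n → ℂ),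
    (∀ t s, ∑ i, conj (v t s i) * u t i = 0) ∧ ∀ M, Φ M = ∑ t, a t * ∏ s, bil (u t) (v t s) (M s)

/-- EG2. As EIG (Helper69_BSE/Eig.lean): for every tuple `M` the map `v ↦ T v M` is a linear
functional, so `T (avg B v) M = ∫_{U_B} T v (A⁻¹ M_s A)_s`; at `M_s = dg (c s)` write `T v` as in SP2
and apply SR2 to every term. -/
def EG2Stmt : Prop := ∀ (n k : ℕ) (ρ : URep n)
  (T : (Fin ρ.dim → ℂ) →ₗ[ℂ] ((Fin k → Matrix (Fin n) (Fin n) ℂ) → ℂ)), IsRowMap k ρ T →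
  ∀ (w : Finset (Fin n) → ℝ) (x : ℝ) (v : Fin ρ.dim → ℂ), ρ.lap w *ᵥ v = (x : ℂ) • v →
  EigFun2 w x (fun c : Fin k → Fin n → ℝ => T v (fun s => dg (c s)))

/-- ND2. Let `T v = ∑_t a_t rowFun u_t v_t` (SP2). (1) With `c_s = e_{i_s}`:
`∑_t a_t ∏_s conj(v_{t,s,i_s}) u_{t,i_s} = 0` for every word `i : Fin k → Fin n`. (2) `v` is fixed by
every diagonal unitary matrix `D` (product of elements of the `U_{i}`), so
`T v M = T v (D⁻¹ M_s D)_s`; average over the `D` whose entries are `N`-th roots of unity, `N > k`: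
expanding over words `I, J`, the average of `∏_s conj(D_{i_s}) D_{j_s}` is `1` if `J` is a
rearrangement of `I`, otherwise `0`; if it is, `∏_s u_{t,j_s} = ∏_s u_{t,i_s}`, so every surviving
coefficient `∑_t a_t ∏_s conj(v_{t,s,i_s}) u_{t,j_s}` vanishes by (1). Hence `T v = 0`, `v = 0`.
(Compare Helper69_BSE/Ndg.lean.) -/
def ND2Stmt : Prop := ∀ (n k : ℕ) (ρ : URep n)
  (T : (Fin ρ.dim → ℂ) →ₗ[ℂ] ((Fin k → Matrix (Fin n) (Fin n) ℂ) → ℂ)), IsRowMap k ρ T →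
  ∀ v : Fin ρ.dim → ℂ, (∀ (i : Fin n), ∀ h ∈ UB ({i} : Finset (Fin n)), ρ.mat h *ᵥ v = v) →
  (∀ c : Fin k → Fin n → ℝ, T v (fun s => dg (c s)) = 0) → v = 0

/-- RD2 (assembly). As RED (Helper59_BSE/Red.lean), from WTS, ND2, EG2, SP2. -/
def RD2Stmt : Prop := ∀ (n k : ℕ), 2 ≤ n → ∀ (ρ : URep n), IsRow k ρ →
  ∀ w : Finset (Fin n) → ℝ, (∀ B, 0 ≤ w B) → ∀ μ : ℝ, OneBody w μ →
  ∀ (x : ℝ) (v : Fin ρ.dim → ℂ), v ≠ 0 → ρ.lap w *ᵥ v = (x : ℂ) • v →
  μ ≤ x ∨ ∃ f : (Fin k → Fin n → ℝ) → ℂ, IsRidge2 f ∧ (∃ c, f c ≠ 0) ∧ EigFun2 w x f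

/-- SU2 (maximum principle for tuples). As SUP (Helper65_BSE/SUP.lean) with
`G c = (∑_s gg (c s)) * (max_s osc (c s)) ^ (k-4)` (for the maximum use the norm of the vector
`fun s => osc (c s)`). `|f c| ≤ C ∏_s osc (c s) ≤ C M^k` with `M = max_s osc (c s)`, and `f c = 0` if
`M = 0`; `∑_s gg (c s) > 0` if `M > 0`; `f (r • c) = r^k f c`, `f (c + t) = f c` (a constant `t_s`
added to each `c s`), so `|f| / G` attains its maximum `R > 0` on the compact set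
`{c : c s 0 = 0 for all s, M = 1}` and `|f c| ≤ R G c` for all `c`. At the maximum `c*`:
`x R G(c*) ≥ ∑_B w_B R (G c* - ∫ G (TB c*)) ≥ R M^(k-4) ∑_s ∑_B w_B (gg (c* s) - ∫ gg (TB B A (c* s)))
≥ R M^(k-4) μ ∑_s gg (c* s) = μ R G(c*)` (OSC for every `s`, CER for every `s`, `OneBody`, CE1 with
`B = univ`). -/
def SU2Stmt : Prop := ∀ (n k : ℕ), 4 ≤ k → ∀ w : Finset (Fin n) → ℝ, (∀ B, 0 ≤ w B) →
  ∀ (μ x : ℝ) (f : (Fin k → Fin n → ℝ) → ℂ), OneBody w μ → IsRidge2 f → (∃ c, f c ≠ 0) →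
  EigFun2 w x f → μ ≤ x

/-- CJ. `avg B` of the conjugate representation is the entrywise conjugate of `avg B`, so
`(cj ρ).lap w *ᵥ conj v = conj (ρ.lap w *ᵥ v)` for real `w`, and the real eigenvalues agree. -/
def CJStmt : Prop := ∀ (n : ℕ) (ρ : URep n) (w : Finset (Fin n) → ℝ),
  (cj ρ).lamMin w = ρ.lamMin w

/-- EX2. Existence: the whole space `RowSpace n k` (finite dimensional, invariant) is a
representation in our format; its dimension is positive (`n ≥ 2`: `u = e_0`, `v_s = e_1`). Same proof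
as EXI in Stmts2.lean (`UNIStmt` is proved: Pool.Agent.BSE.H90.uni in Helper90_BSE/UNI.lean). -/
def EX2Stmt : Prop := ∀ (n k : ℕ), 2 ≤ n → ∃ ρ : URep n, 0 < ρ.dim ∧ IsRow k ρ

end Pool.Agent.BSE
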