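import Pool.Agent.BSE.Stmts4

/-!
# Levels `k = 2, 3`, not totally symmetric, all hypergraphs: definitions and statements
(problem MP_3b0ba7_pr)

`ρ_{(3,0,…,0,-1,-2)}`, `ρ_{(3,0,…,0,-1,-1,-1)}`, `ρ_{(2,0,…,0,-1,-1)}`. `phi` is a real tensor of
order 3 with zero marginals, either `Mix3` (symmetric in the last two slots, cyclic sum zero) or
`Alt3` (alternating). The proof of every module is its docstring. All identities were checked in exact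
arithmetic for `n = 3, 4, 5` and all block sizes.
-/

open MeasureTheory Matrix Finset
open scoped ComplexConjugate

namespace Pool.Agent.BSE

open Pool.Agent.Helper64_FR

variable {n : ℕ}

/-- `ρ` is a subrepresentation of the part of `RowSpace n k` on which the symmetrization over the
`k` matrices vanishes; for irreducible `ρ`: `ρ = ρ_{(k,0,...,0,-β_l,...,-β_1)}`, `β` a partition of
`k`, `β ≠ (k)`. -/
def IsRowNS (k : ℕ) (ρ : URep n) : Prop :=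
  ∃ T : (Fin ρ.dim → ℂ) →ₗ[ℂ] ((Fin k → Matrix (Fin n) (Fin n) ℂ) → ℂ), IsRowMap k ρ T ∧
    ∀ (v : Fin ρ.dim → ℂ) (M : Fin k → Matrix (Fin n) (Fin n) ℂ),
      ∑ σ : Equiv.Perm (Fin k), T v (fun s => M (σ s)) = 0

/-- the trilinear form of a tensor -/
def tri3 (φ : Fin n → Fin n → Fin n → ℝ) (c : Fin 3 → Fin n → ℝ) : ℝ :=
  ∑ i, ∑ j, ∑ k, φ i j k * (c 0 i * c 1 j * c 2 k)

/-- symmetric in the last two slots, cyclic sum zero, zero marginals -/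
def Mix3 (φ : Fin n → Fin n → Fin n → ℝ) : Prop :=
  (∀ i j k, φ i j k = φ i k j) ∧ (∀ i j k, φ i j k + φ j k i + φ k i j = 0) ∧
    (∀ j k, ∑ i, φ i j k = 0) ∧ (∀ i k, ∑ j, φ i j k = 0)

/-- alternating, zero marginals -/
def Alt3 (φ : Fin n → Fin n → Fin n → ℝ) : Prop :=
  (∀ i j k, φ i j k = -φ j i k) ∧ (∀ i j k, φ i j k = -φ i k j) ∧ (∀ j k, ∑ i, φ i j k = 0)

/-- number of permutations fixing the word `(x, y)` -/
def m2 (x y : Fin n) : ℝ := if x = y then 2 else 1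

/-- number of permutations fixing the word `(i, j, k)` -/
def m6 (i j k : Fin n) : ℝ :=
  1 + (if i = j then 1 else 0) + (if j = k then 1 else 0) + (if i = k then 1 else 0) +
    (if i = j ∧ j = k then 2 else 0)

/-- replacement: the value at an index of `B` is replaced by the sum over `B` -/
def rb (B : Finset (Fin n)) (g : Fin n → ℝ) (i : Fin n) : ℝ := if i ∈ B then ∑ j ∈ B, g j else g i

/-- mixed moments of the uniform distribution on the simplex over `B` for the indices in `B` -/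
noncomputable def mom (B : Finset (Fin n)) (i j k : Fin n) : ℝ :=
  if i ∈ B then
    if j ∈ B then
      if k ∈ B then m6 i j k / ((B.card : ℝ) * (B.card + 1) * (B.card + 2))
      else m2 i j / ((B.card : ℝ) * (B.card + 1))
    else
      if k ∈ B then m2 i k / ((B.card : ℝ) * (B.card + 1)) else 1 / (B.card : ℝ)
  else
    if j ∈ B then
      if k ∈ B then m2 j k / ((B.card : ℝ) * (B.card + 1)) else 1 / (B.card : ℝ)
    else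
      if k ∈ B then 1 / (B.card : ℝ) else 1

/-- the tensor of the average of `tri3 φ` over `U_B` -/
noncomputable def p3 (B : Finset (Fin n)) (φ : Fin n → Fin n → Fin n → ℝ) (i j k : Fin n) : ℝ :=
  mom B i j k * rb B (fun i' => rb B (fun j' => rb B (fun k' => φ i' j' k') k) j) i

/-- normalised tensor -/
noncomputable def nF (φ : Fin n → Fin n → Fin n → ℝ) (i j k : Fin n) : ℝ := φ i j k / m6 i j k

/-- the energy of the block `B` -/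
noncomputable def en3 (B : Finset (Fin n)) (φ : Fin n → Fin n → Fin n → ℝ) : ℝ :=
  ∑ i, ∑ j, ∑ k, nF φ i j k * (φ i j k - p3 B φ i j k)

/-- the square norm -/
noncomputable def no3 (φ : Fin n → Fin n → Fin n → ℝ) : ℝ := ∑ i, ∑ j, ∑ k, nF φ i j k * φ i j k

/-- `∑_{x ∈ B} (g_x - ḡ_B)²` -/
noncomputable def vb (B : Finset (Fin n)) (g : Fin n → ℝ) : ℝ :=
  ∑ x ∈ B, g x ^ 2 - (∑ x ∈ B, g x) ^ 2 / B.card

/-- the certificate at the block `B` for `Mix3` -/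
noncomputable def ce3 (B : Finset (Fin n)) (φ : Fin n → Fin n → Fin n → ℝ) : ℝ :=
  3 / 4 * ∑ y, ∑ z, vb B (fun x => nF φ x y z) +
    (3 / 2 + 3 / (4 * (n : ℝ))) * ∑ y, vb B (fun x => nF φ x y y) +
    1 / 12 * ∑ y, ∑ z, vb B (fun x => nF φ y x z - nF φ z x y)

/-- RD3. As RD2 with the additional information that the symmetrization of
`f c = T v (dg ∘ c)` vanishes (take `M_s = dg (c s)` in `IsRowNS`). -/
def RD3Stmt : Prop := ∀ (n k : ℕ), 2 ≤ n → ∀ (ρ : URep n), IsRowNS k ρ →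
  ∀ w : Finset (Fin n) → ℝ, (∀ B, 0 ≤ w B) → ∀ μ : ℝ, OneBody w μ →
  ∀ (x : ℝ) (v : Fin ρ.dim → ℂ), v ≠ 0 → ρ.lap w *ᵥ v = (x : ℂ) • v →
  μ ≤ x ∨ ∃ f : (Fin k → Fin n → ℝ) → ℂ, IsRidge2 f ∧ (∃ c, f c ≠ 0) ∧ EigFun2 w x f ∧
    ∀ c : Fin k → Fin n → ℝ, ∑ σ : Equiv.Perm (Fin k), f (fun s => c (σ s)) = 0

/-- RF4. Reduction to real tensors, `k = 3`. `Φ_ijk = ∑_t a_t x_{t,0,i} x_{t,1,j} x_{t,2,k}` is the
complex tensor of `f`, all marginals vanish. `EigFun2` and the ridge property are invariant under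
permutations of the slots (the same `TB` in all slots). If `Φ + Φ^τ ≠ 0` for one of the three
transpositions `τ`, permute the slots so that the result `Ψ ≠ 0` is symmetric in the last two slots; its
cyclic sum is (half of) the full symmetrization of `Φ`, which is zero (evaluate the hypothesis at basis
vectors). If `Φ + Φ^τ = 0` for all `τ` then `Φ` is alternating. Finally take the real or the
imaginary part (`x`, `w`, `TB` are real; `A ↦ TB B A c` is continuous, so everything is integrable). -/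
def RF4Stmt : Prop := ∀ (n : ℕ) (w : Finset (Fin n) → ℝ) (x : ℝ) (f : (Fin 3 → Fin n → ℝ) → ℂ),
  IsRidge2 f → (∃ c, f c ≠ 0) → EigFun2 w x f →
  (∀ c : Fin 3 → Fin n → ℝ, ∑ σ : Equiv.Perm (Fin 3), f (fun s => c (σ s)) = 0) →
  ∃ φ : Fin n → Fin n → Fin n → ℝ, (Mix3 φ ∨ Alt3 φ) ∧ (∃ i j k, φ i j k ≠ 0) ∧
    ∀ c : Fin 3 → Fin n → ℝ, ∑ B : Finset (Fin n), w B *
      (tri3 φ c - ∫ A : UB B, tri3 φ (fun s => TB B (A : UU n) (c s)) ∂(haarB B)) = x * tri3 φ c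

/-- MO5. Mixed moments of order at most 3 of a column of a random element of `U_B`. MO2 with
`1 + t a_j` instead of `a_j` (`∑_j |A_jb|² = 1`) gives, comparing the coefficients of `t, t², t³`
(both sides are polynomials in `t` of degree at most 4), the moments of `X = ∑_j |A_jb|² a_j`:
`E X = s₁/β`, `E X² = (s₁² + s₂)/(β(β+1))`, `E X³ = (s₁³ + 3 s₁ s₂ + 2 s₃)/(β(β+1)(β+2))` with
`s_r = ∑_{j∈B} a_j^r`, `β = |B|`. Polarize: `2 XY = (X+Y)² - X² - Y²`,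
`6 XYZ = (X+Y+Z)³ - (X+Y)³ - (X+Z)³ - (Y+Z)³ + X³ + Y³ + Z³`. (MO2 is proved:
Pool.Agent.BSE.H9.mo2, hypotheses H30.mo1, H25.sc1, …) -/
def MO5Stmt : Prop := ∀ (n : ℕ) (B : Finset (Fin n)) (b : Fin n), b ∈ B → ∀ a a' a'' : Fin n → ℝ,
  ∫ A : UB B, (∑ j ∈ B, ‖((A : UU n) : Matrix (Fin n) (Fin n) ℂ) j b‖ ^ 2 * a j) ∂(haarB B) =
      (∑ j ∈ B, a j) / B.card ∧
  ∫ A : UB B, (∑ j ∈ B, ‖((A : UU n) : Matrix (Fin n) (Fin n) ℂ) j b‖ ^ 2 * a j) *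
      (∑ j ∈ B, ‖((A : UU n) : Matrix (Fin n) (Fin n) ℂ) j b‖ ^ 2 * a' j) ∂(haarB B) =
      ((∑ j ∈ B, a j) * (∑ j ∈ B, a' j) + ∑ j ∈ B, a j * a' j) / ((B.card : ℝ) * (B.card + 1)) ∧
  ∫ A : UB B, (∑ j ∈ B, ‖((A : UU n) : Matrix (Fin n) (Fin n) ℂ) j b‖ ^ 2 * a j) *
      (∑ j ∈ B, ‖((A : UU n) : Matrix (Fin n) (Fin n) ℂ) j b‖ ^ 2 * a' j) *
      (∑ j ∈ B, ‖((A : UU n) : Matrix (Fin n) (Fin n) ℂ) j b‖ ^ 2 * a'' j) ∂(haarB B) =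
      ((∑ j ∈ B, a j) * (∑ j ∈ B, a' j) * (∑ j ∈ B, a'' j) +
        (∑ j ∈ B, a j * a' j) * (∑ j ∈ B, a'' j) + (∑ j ∈ B, a j * a'' j) * (∑ j ∈ B, a' j) +
        (∑ j ∈ B, a' j * a'' j) * (∑ j ∈ B, a j) + 2 * ∑ j ∈ B, a j * a' j * a'' j) /
      ((B.card : ℝ) * (B.card + 1) * (B.card + 2))

/-- AV4. `B = ∅`: `TB ∅ A c = c`, `p3 ∅ φ = φ`. Otherwise, with `b = min B`,
`V_s = ∑_{j∈B} |A_jb|² c_sj`, expand `tri3 φ (TB c)` according to which of the indices `i, j, k` lie in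
`B` and use MO5 for each of the patterns; e.g. for `i, j ∈ B`, `k ∉ B`:
`E V_0 V_1 = ∑_{i',j'∈B} m2 i' j' c_0i' c_1j' / (β(β+1))` and
`∑_{i,j∈B} φ_ijk = rb rb φ`, so the term is `∑_{i',j'∈B} mom · (rb rb rb φ)_{i'j'k} c_0i' c_1j' c_2k`. -/
def AV4Stmt : Prop := ∀ (n : ℕ) (B : Finset (Fin n)) (φ : Fin n → Fin n → Fin n → ℝ)
  (c : Fin 3 → Fin n → ℝ),
  ∫ A : UB B, tri3 φ (fun s => TB B (A : UU n) (c s)) ∂(haarB B) = tri3 (p3 B φ) c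

/-- DVB. `∑_i (dv B g i)² = vb B g`. -/
def DVBStmt : Prop := ∀ (n : ℕ) (B : Finset (Fin n)) (g : Fin n → ℝ),
  ∑ i, H47.dv B g i ^ 2 = vb B g

/-- ESP. Decomposition of the energy of a `Mix3` tensor by the number of indices in `B`
(`F = nF φ`, `φ = m6 · F`). No index in `B`: `p3 B φ = φ`, contribution 0. One index in `B`:
`mom = 1/β`, `rb rb rb φ = m2 y z ∑_{x∈B} F`, contribution
`m2 y z (∑_{x∈B} F² - (∑_{x∈B} F)²/β)` (three patterns, two of them equal by symmetry in the last two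
slots). Two indices: three patterns, two equal. Three indices: `∑_{B³} φ = 0` (cyclic sum), so `p3`
contributes `0`. -/
def ESPStmt : Prop := ∀ (n : ℕ) (B : Finset (Fin n)) (φ : Fin n → Fin n → Fin n → ℝ), Mix3 φ →
  en3 B φ =
    ∑ y ∈ Bᶜ, ∑ z ∈ Bᶜ, m2 y z *
      (vb B (fun x => nF φ x y z) + 2 * vb B (fun x => nF φ y x z)) +
    ∑ w ∈ Bᶜ, (∑ x ∈ B, ∑ y ∈ B, m2 x y * (nF φ w x y ^ 2 + 2 * nF φ x y w ^ 2) -
      ((∑ x ∈ B, ∑ y ∈ B, m2 x y * nF φ w x y) ^ 2 +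
        2 * (∑ x ∈ B, ∑ y ∈ B, m2 x y * nF φ x y w) ^ 2) / ((B.card : ℝ) * (B.card + 1))) +
    ∑ x ∈ B, ∑ y ∈ B, ∑ z ∈ B, m6 x y z * nF φ x y z ^ 2

/-- CSP. Decomposition of the certificate (split every sum over `y`, `z` into `B` and `Bᶜ`, and use
`nF φ x y z = nF φ x z y`, `vb B (-g) = vb B g`). -/
def CSPStmt : Prop := ∀ (n : ℕ) (B : Finset (Fin n)) (φ : Fin n → Fin n → Fin n → ℝ), Mix3 φ →
  ce3 B φ =
    (∑ y ∈ Bᶜ, ∑ z ∈ Bᶜ, (3 / 4 * vb B (fun x => nF φ x y z) +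
        1 / 12 * vb B (fun x => nF φ y x z - nF φ z x y)) +
      (3 / 2 + 3 / (4 * (n : ℝ))) * ∑ y ∈ Bᶜ, vb B (fun x => nF φ x y y)) +
    ∑ w ∈ Bᶜ, ∑ y ∈ B, (3 / 2 * vb B (fun x => nF φ x y w) +
      1 / 6 * vb B (fun x => nF φ y x w - nF φ w x y)) +
    (∑ y ∈ B, ∑ z ∈ B, (3 / 4 * vb B (fun x => nF φ x y z) +
        1 / 12 * vb B (fun x => nF φ y x z - nF φ z x y)) +
      (3 / 2 + 3 / (4 * (n : ℝ))) * ∑ y ∈ B, vb B (fun x => nF φ x y y))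

/-- E1B. One index in `B`. For `y ≠ z` outside `B` put `a x = F x y z`, `b x = F y x z`,
`c x = F z x y`, `a + b + c = 0`; the sum over `(y,z)` and `(z,y)` of the right side is
`2 vb a + 2 vb b + 2 vb c`, of the left side `3/2 vb a + 1/6 vb (b - c)`,
`vb (b - c) = 2 vb b + 2 vb c - vb a`. For `y = z`: `F y x y = -a/2`, left side
`(3/4 + 3/2 + 3/(4n)) vb a ≤ 3 vb a` = right side. (Equivalently: bound every term, using
`∑_{y,z} vb (F y · z) = ∑_{y,z} vb (F z · y)`.) -/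
def E1BStmt : Prop := ∀ (n : ℕ) (B : Finset (Fin n)) (φ : Fin n → Fin n → Fin n → ℝ), Mix3 φ →
  ∑ y ∈ Bᶜ, ∑ z ∈ Bᶜ, (3 / 4 * vb B (fun x => nF φ x y z) +
      1 / 12 * vb B (fun x => nF φ y x z - nF φ z x y)) +
    (3 / 2 + 3 / (4 * (n : ℝ))) * ∑ y ∈ Bᶜ, vb B (fun x => nF φ x y y) ≤
  ∑ y ∈ Bᶜ, ∑ z ∈ Bᶜ, m2 y z *
    (vb B (fun x => nF φ x y z) + 2 * vb B (fun x => nF φ y x z))

/-- Q2B. Two indices in `B`, pure algebra: `a` symmetric, `k` antisymmetric on `B`,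
`A = ∑ m2 a`, `q = A/(β(β+1))`, `ã = a - q`. The difference of the two sides is exactly
`9/4 ∑_x ã_xx² + (1/β) ∑_y (3/4 r_y² + 5/3 s_y² - r_y s_y)` with the sums `r_y = ∑_{x∈B} ã_xy`,
`s_y = ∑_{x∈B} k_xy`, which is nonnegative. (Expand: `∑ a k = 0`, `∑_y s_y = 0`,
`∑_{x,y} m2 ã = 0`, `∑ m2 (-a/2 + k) = -A/2`; `B.Nonempty`.) -/
def Q2BStmt : Prop := ∀ (n : ℕ) (B : Finset (Fin n)), B.Nonempty → ∀ (a k : Fin n → Fin n → ℝ),
  (∀ x y, a x y = a y x) → (∀ x y, k x y = -k y x) →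
  ∀ q : ℝ, q = (∑ x ∈ B, ∑ y ∈ B, m2 x y * a x y) / ((B.card : ℝ) * (B.card + 1)) →
  3 / 4 * ∑ x ∈ B, ∑ y ∈ B, (if x = y then 0 else (a x y - q) ^ 2) +
      1 / 3 * ∑ x ∈ B, ∑ y ∈ B, k x y ^ 2 ≤
    ∑ x ∈ B, ∑ y ∈ B, m2 x y * (a x y ^ 2 + 2 * (-(a x y) / 2 + k x y) ^ 2) -
      ((∑ x ∈ B, ∑ y ∈ B, m2 x y * a x y) ^ 2 +
        2 * (∑ x ∈ B, ∑ y ∈ B, m2 x y * (-(a x y) / 2 + k x y)) ^ 2) /
          ((B.card : ℝ) * (B.card + 1)) -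
      ∑ y ∈ B, (3 / 2 * vb B (fun x => -(a x y) / 2 + k x y) +
        1 / 6 * vb B (fun x => (-(a y x) / 2 + k y x) - a x y))

/-- Q3B. Three indices in `B`, an identity. `F x x x = 0`, `F x x y = F x y x = -F y x x / 2`. With
`T` the sum of `F²` over triples of distinct elements of `B` and `G2 = ∑_{x,y∈B} F x y y ²`:
`∑ m6 F² = T + 3 G2`, `∑ F² = T + 3/2 G2`, `∑ (F y x z - F z x y)² = 3 T + 9/2 G2` (for distinct
indices use `a + b + c = 0`; all three are sums over `B³`: it is enough to use, pointwise, the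
symmetrized identity, or to compare `∑ (F y x z - F z x y)² = 2 ∑ F² - 2 ∑ F y x z F z x y`). -/
def Q3BStmt : Prop := ∀ (n : ℕ) (B : Finset (Fin n)), B.Nonempty →
  ∀ (φ : Fin n → Fin n → Fin n → ℝ), Mix3 φ →
  ∑ x ∈ B, ∑ y ∈ B, ∑ z ∈ B, m6 x y z * nF φ x y z ^ 2 -
    (∑ y ∈ B, ∑ z ∈ B, (3 / 4 * vb B (fun x => nF φ x y z) +
        1 / 12 * vb B (fun x => nF φ y x z - nF φ z x y)) +
      (3 / 2 + 3 / (4 * (n : ℝ))) * ∑ y ∈ B, vb B (fun x => nF φ x y y)) =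
  -(3 / (4 * (n : ℝ))) * ∑ x ∈ B, ∑ y ∈ B, nF φ x y y ^ 2 +
    3 / (4 * (B.card : ℝ)) * ∑ y ∈ B, ∑ z ∈ B, (∑ x ∈ B, nF φ x y z) ^ 2 +
    1 / (12 * (B.card : ℝ)) * ∑ y ∈ B, ∑ z ∈ B, (∑ x ∈ B, (nF φ y x z - nF φ z x y)) ^ 2 +
    (3 / 2 + 3 / (4 * (n : ℝ))) / B.card * ∑ y ∈ B, (∑ x ∈ B, nF φ x y y) ^ 2

/-- CNB. Consequences of the zero marginals. For `y ≠ z`:
`0 = ∑_x φ x y z = ∑_{x ≠ y,z} F x y z + 2 F y y z + 2 F z y z` and `2 F y y z = -F z y y`, so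
`∑_x F x y z = (F y z z + F z y y)/2` (sum over all `x`); for `y = z`: `∑_x F x y y = 0`; and
`∑_j φ y j z = 0` gives in the same way
`∑_j (F y j z - F z j y) = -3/2 (F y z z - F z y y)` (sum over all `j`). Third: sum over
`w ∈ Bᶜ`, `x,y ∈ B`: `∑_{w ∉ B} ∑_{x,y∈B} m2 x y F w x y = ∑_{x,y∈B} m2 x y (∑_w F w x y) -
∑_{w,x,y∈B} m2 x y F w x y`, where the first term is `∑_{x≠y∈B} (F x y y + F y x x)/2 =
∑_{x,y∈B} F x y y =: g` and the second is, by the cyclic sum and `m2 = 1 + δ`,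
`∑_{B³} F + ∑_{w,x∈B} F w x x = 0 + g`. (`∑_{B³} F = 0` because `m6` is symmetric.) -/
def CNBStmt : Prop := ∀ (n : ℕ) (φ : Fin n → Fin n → Fin n → ℝ), Mix3 φ →
  (∀ y z, y ≠ z → ∑ x, nF φ x y z = (nF φ y z z + nF φ z y y) / 2) ∧
  (∀ y, ∑ x, nF φ x y y = 0) ∧
  (∀ y z, ∑ x, (nF φ y x z - nF φ z x y) = -(3 / 2) * (nF φ y z z - nF φ z y y)) ∧
  (∀ B : Finset (Fin n), ∑ w ∈ Bᶜ, ∑ x ∈ B, ∑ y ∈ B, m2 x y * nF φ w x y = 0)

/-- E2B. The remaining inequality (CNB, Q2B, Q3B). Let `F = nF φ`, `G y z = F y z z`, `β = |B|`,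
`a^w x y = F w x y`, `k^w x y = (F x y w - F y x w)/2` (so `F x y w = -a^w/2 + k^w`),
`A^w = ∑_{x,y∈B} m2 a^w`, `q^w = A^w/(β(β+1))`, `∑_{w∉B} q^w = 0`. By Q2B the terms `w ∈ Bᶜ` on the
right exceed those on the left by at least `3/4 ∑_{x≠y∈B} (a^w - q^w)² + 1/3 ∑ (k^w)²`; by Q3B the
terms with three indices exceed by `-(3/(4n)) ∑ G² + (3/(4β)) ∑ ρ² + (1/(12β)) ∑ κ² + (≥ 0)`. For
`y ≠ z` in `B` (CNB): `(G y z + G z y)/2 = ρ_yz + ∑_{w∉B} (a^w - q^w)_yz`,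
`-(3/2)(G y z - G z y) = κ_yz + 2 ∑_{w∉B} k^w_yz`. Cauchy over `β + (n - β) = n`:
`(ρ + ∑_w t_w)² ≤ n (ρ²/β + ∑_w t_w²)` and `(κ + 2 ∑ k^w)² ≤ n (κ²/β + 4 ∑ (k^w)²)`. And
`∑_{x,y∈B} G² = 1/4 ∑_{y≠z} ((G y z + G z y)² + (G y z - G z y)²)` (`G y y = 0`). -/
def E2BStmt : Prop := ∀ (n : ℕ) (B : Finset (Fin n)), B.Nonempty →
  ∀ (φ : Fin n → Fin n → Fin n → ℝ), Mix3 φ →
  ∑ w ∈ Bᶜ, ∑ y ∈ B, (3 / 2 * vb B (fun x => nF φ x y w) +
      1 / 6 * vb B (fun x => nF φ y x w - nF φ w x y)) +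
    (∑ y ∈ B, ∑ z ∈ B, (3 / 4 * vb B (fun x => nF φ x y z) +
        1 / 12 * vb B (fun x => nF φ y x z - nF φ z x y)) +
      (3 / 2 + 3 / (4 * (n : ℝ))) * ∑ y ∈ B, vb B (fun x => nF φ x y y)) ≤
  ∑ w ∈ Bᶜ, (∑ x ∈ B, ∑ y ∈ B, m2 x y * (nF φ w x y ^ 2 + 2 * nF φ x y w ^ 2) -
      ((∑ x ∈ B, ∑ y ∈ B, m2 x y * nF φ w x y) ^ 2 +
        2 * (∑ x ∈ B, ∑ y ∈ B, m2 x y * nF φ x y w) ^ 2) / ((B.card : ℝ) * (B.card + 1))) +
    ∑ x ∈ B, ∑ y ∈ B, ∑ z ∈ B, m6 x y z * nF φ x y z ^ 2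

/-- EMX. Assembly: `ce3 B φ ≤ en3 B φ` from ESP, CSP, E1B, E2B (`B = ∅`: both sides vanish). -/
def EMXStmt : Prop := ∀ (n : ℕ) (B : Finset (Fin n)) (φ : Fin n → Fin n → Fin n → ℝ), Mix3 φ →
  ce3 B φ ≤ en3 B φ

/-- EMT. The total: `ce3 univ φ = no3 φ`. CSP with `B = univ` (the sums over `Bᶜ` are empty), Q3B and
CNB: `∑_{x,y,z} m6 F² = no3 φ`, and the right side of Q3B is
`-(3/(4n)) G2 + (3/(4n)) ∑_{y≠z} ((G y z + G z y)/2)² + (1/(12n)) (9/4) ∑ (G y z - G z y)² = 0`. -/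
def EMTStmt : Prop := ∀ (n : ℕ), 0 < n → ∀ (φ : Fin n → Fin n → Fin n → ℝ), Mix3 φ →
  ce3 Finset.univ φ = no3 φ

/-- EAB. Alternating tensors: `φ` vanishes unless the indices are distinct, so `nF φ = φ`. One index in
`B` (three equal patterns): energy `3 ∑_{y,z∉B} vb B (φ · y z)`; two or three indices in `B`:
`rb rb rb φ = 0` by antisymmetry, energy `3 ∑_{w∉B} ∑_{x,y∈B} φ x y w ² + ∑_{B³} φ²`. The left side is
`∑_{y,z∉B} vb + 2 ∑_{y∈B,w∉B} vb B (φ · y w) + ∑_{y,z∈B} vb B (φ · y z)`, and `0 ≤ vb B g ≤ ∑_B g²`. -/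
def EABStmt : Prop := ∀ (n : ℕ) (B : Finset (Fin n)) (φ : Fin n → Fin n → Fin n → ℝ), Alt3 φ →
  ∑ y, ∑ z, vb B (fun x => φ x y z) ≤ en3 B φ

/-- SU3. Level 3, not totally symmetric: assembly. RF4 gives a real tensor; AV4 and evaluation at basis
vectors give `∑_B w_B (φ - p3 B φ) = x φ`; multiply by `nF φ` and sum:
`∑_B w_B en3 B φ = x no3 φ`, `no3 φ > 0`. `OneBody` (with DVB) for all the vectors in the definition of
`ce3` gives `μ ce3 univ φ ≤ ∑_B w_B ce3 B φ ≤ ∑_B w_B en3 B φ` (EMX) and `ce3 univ φ = no3 φ` (EMT).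
For `Alt3 φ` use EAB; the total is `∑_{y,z} vb univ (φ · y z) = ∑ φ² = no3 φ` (zero marginals). -/
def SU3Stmt : Prop := ∀ (n : ℕ) (w : Finset (Fin n) → ℝ), (∀ B, 0 ≤ w B) →
  ∀ (μ x : ℝ) (f : (Fin 3 → Fin n → ℝ) → ℂ), OneBody w μ → IsRidge2 f → (∃ c, f c ≠ 0) →
  EigFun2 w x f →
  (∀ c : Fin 3 → Fin n → ℝ, ∑ σ : Equiv.Perm (Fin 3), f (fun s => c (σ s)) = 0) → μ ≤ x

/-- SK2. Level 2, alternating, complete: `f (c_0, c_1) = ∑_t a_t ∏_s ∑_i x_{t,s,i} c_{s,i}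
= ∑ Φ_ij c_0i c_1j`, `Φ` antisymmetric with zero marginals, complex. With MO5 (first two parts),
`E f(TB c)` has the tensor `Φ_ij` (`i, j ∉ B`), `(1/β) ∑_{i∈B} Φ_ij` (`i ∈ B`, `j ∉ B`),
`(1/β) ∑_{j∈B} Φ_ij` (`i ∉ B`, `j ∈ B`), `m2/(β(β+1)) ∑_{B²} Φ = 0` (`i, j ∈ B`). So
`x ∑ |Φ|² = ∑_B w_B (2 ∑_{y∉B} vb B (Φ · y) + ∑_{i,j∈B} |Φ_ij|²) ≥ ∑_B w_B ∑_y vb B (Φ · y)
≥ μ ∑_y vb univ (Φ · y) = μ ∑ |Φ|²` (real and imaginary parts separately). -/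
def SK2Stmt : Prop := ∀ (n : ℕ) (w : Finset (Fin n) → ℝ), (∀ B, 0 ≤ w B) →
  ∀ (μ x : ℝ) (f : (Fin 2 → Fin n → ℝ) → ℂ), OneBody w μ → IsRidge2 f → (∃ c, f c ≠ 0) →
  EigFun2 w x f →
  (∀ c : Fin 2 → Fin n → ℝ, ∑ σ : Equiv.Perm (Fin 2), f (fun s => c (σ s)) = 0) → μ ≤ x

end Pool.Agent.BSE
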